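import Pool.Agent.Helper54.DI.StmtsC

/-! Module P3 of the dichotomy project: one function of the parametrization is not affine. -/

namespace Pool.Agent.Helper54.DI

open Finset Filter Topology

theorem p3_update_mem_ball {d : ℕ} (w y : Fin d → ℝ) (i : Fin d) (s ε : ℝ)
    (hy : dist y w < ε / 2) (hs : |s| < ε / 2) :
    dist (Function.update y i (y i + s)) w < ε := by
  have hε : 0 < ε / 2 := lt_of_le_of_lt dist_nonneg hy
  have h1 : dist (Function.update y i (y i + s)) y < ε / 2 := by
    rw [dist_pi_lt_iff hε]
    intro j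
    by_cases hj : j = i
    · subst hj
      rw [Function.update_self, Real.dist_eq]
      simpa using hs
    · rw [Function.update_of_ne hj, dist_self]
      exact hε
  calc dist (Function.update y i (y i + s)) w
      ≤ dist (Function.update y i (y i + s)) y + dist y w := dist_triangle _ _ _
    _ < ε / 2 + ε / 2 := add_lt_add h1 hy
    _ = ε := by ring

theorem p3_sum_update {d : ℕ} (a y : Fin d → ℝ) (i : Fin d) (s : ℝ) :
    ∑ j, a j * Function.update y i (y i + s) j = ∑ j, a j * y j + a i * s := by
  have h : ∀ j, a j * Function.update y i (y i + s) j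
      = a j * y j + (if j = i then a i * s else 0) := by
    intro j
    by_cases hj : j = i
    · subst hj
      rw [Function.update_self, if_pos rfl]
      ring
    · rw [Function.update_of_ne hj, if_neg hj]
      ring
  rw [Finset.sum_congr rfl (fun j _ => h j), Finset.sum_add_distrib, Finset.sum_ite_eq',
    if_pos (Finset.mem_univ i)]

/-- coefficients of an affine function of the parametrization -/
theorem p3_coef (hTOP : ST_TOP) (d : ℕ) (P : Ideal (MvPolynomial (Fin d) KK))
    (J : Finset (Fin d)) (w : Fin d → ℝ) (F : (Fin d → ℝ) → (Fin d → ℝ))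
    (hL : LocPar P J w F) (l : Fin d) (a : Fin d → ℝ) (b : ℝ)
    (h : ∀ᶠ x in 𝓝 w, F x l = ∑ i, a i * x i + b) :
    ∃ (A : Fin d → KK) (B : KK), (∀ i, (A i : ℝ) = a i) ∧ (B : ℝ) = b ∧ (∀ i, i ∉ J → A i = 0) ∧
      toP ((fun i => (if i = l then 1 else 0) - A i, -B) : KForm d) ∈ P := by
  obtain ⟨ε, hε, hb⟩ := Metric.eventually_nhds_iff.1 (h.and hL.alg)
  have hε2 : 0 < ε / 2 := by linarith
  have ha0 : ∀ i, i ∉ J → a i = 0 := by
    intro i hi
    have hs : |ε / 4| < ε / 2 := by
      rw [abs_of_pos (by linarith)]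
      linarith
    have hw : dist w w < ε := by rw [dist_self]; exact hε
    have hw2 : dist w w < ε / 2 := by rw [dist_self]; exact hε2
    have h1 := (hb hw).1
    have h2 := (hb (p3_update_mem_ball w w i (ε / 4) ε hw2 hs)).1
    have h3 : F (Function.update w i (w i + ε / 4)) = F w := by
      refine hL.dep _ _ ?_
      intro j hj
      have hji : j ≠ i := by
        rintro rfl
        exact hi hj
      rw [Function.update_of_ne hji]
    rw [h3, h1, p3_sum_update] at h2
    have h4 : a i * (ε / 4) = 0 := by linarith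
    rcases mul_eq_zero.1 h4 with h5 | h5
    · exact h5
    · exfalso
      linarith
  have hq : ∀ i, ∃ q : ℚ, w i < (q : ℝ) ∧ (q : ℝ) < w i + ε / 2 := fun i =>
    exists_rat_btwn (by linarith)
  choose q hq1 hq2 using hq
  obtain ⟨s, hs1, hs2⟩ := exists_rat_btwn hε2
  let y : Fin d → ℝ := fun i => (q i : ℝ)
  have hy : dist y w < ε / 2 := by
    rw [dist_pi_lt_iff hε2]
    intro i
    rw [Real.dist_eq, abs_of_pos (by have := hq1 i; simp only [y]; linarith)]
    have := hq2 i
    simp only [y]
    linarith
  have hyε : dist y w < ε := by linarith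
  have hrat : ∀ r : ℚ, (r : ℝ) ∈ KK := fun r => by simp
  have hyK : ∀ i, y i ∈ KK := fun i => hrat (q i)
  have hFy : F y l ∈ KK := (hb hyε).2 hyK l
  have hval : F y l = ∑ i, a i * y i + b := (hb hyε).1
  have haK : ∀ i, a i ∈ KK := by
    intro i
    have hsa : |(s : ℝ)| < ε / 2 := by
      rw [abs_of_pos hs1]
      exact hs2
    have hz := p3_update_mem_ball w y i (s : ℝ) ε hy hsa
    have hzK : ∀ j, Function.update y i (y i + (s : ℝ)) j ∈ KK := by
      intro j
      by_cases hj : j = i
      · subst hj
        rw [Function.update_self]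
        exact KK.add_mem (hyK j) (hrat s)
      · rw [Function.update_of_ne hj]
        exact hyK j
    have hFz : F (Function.update y i (y i + (s : ℝ))) l ∈ KK := (hb hz).2 hzK l
    have hvz := (hb hz).1
    rw [p3_sum_update] at hvz
    have hdiff : F (Function.update y i (y i + (s : ℝ))) l - F y l = a i * (s : ℝ) := by
      rw [hvz, hval]
      ring
    have hai : a i = (F (Function.update y i (y i + (s : ℝ))) l - F y l) * (s : ℝ)⁻¹ := by
      rw [hdiff, mul_assoc, mul_inv_cancel₀ (ne_of_gt hs1), mul_one]
    rw [hai]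
    exact KK.mul_mem (KK.sub_mem hFz hFy) (KK.inv_mem (hrat s))
  have hbK : b ∈ KK := by
    have : b = F y l - ∑ i, a i * y i := by
      rw [hval]
      ring
    rw [this]
    exact KK.sub_mem hFy (KK.sum_mem fun i _ => KK.mul_mem (haK i) (hyK i))
  refine ⟨fun i => ⟨a i, haK i⟩, ⟨b, hbK⟩, fun i => rfl, rfl, fun i hi => Subtype.ext (ha0 i hi), ?_⟩
  refine hL.dense _ ?_
  filter_upwards [h] with x hx
  rw [hTOP]
  unfold kev
  have hterm : ∀ i, (((if i = l then (1 : KK) else 0) - ⟨a i, haK i⟩ : KK) : ℝ) * F x i =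
      (if i = l then F x l else 0) - a i * x i := by
    intro i
    have h2 : a i * F x i = a i * x i := by
      by_cases hi : i ∈ J
      · rw [hL.idJ x i hi]
      · rw [ha0 i hi, zero_mul, zero_mul]
    by_cases hi : i = l
    · subst hi
      rw [if_pos rfl, if_pos rfl]
      push_cast
      rw [sub_mul, one_mul, h2]
    · rw [if_neg hi, if_neg hi]
      push_cast
      rw [sub_mul, zero_mul, h2]
  rw [Finset.sum_congr rfl (fun i _ => hterm i), Finset.sum_sub_distrib, Finset.sum_ite_eq',
    if_pos (Finset.mem_univ l), hx]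
  push_cast
  ring

/-- a polynomial over `KK` vanishing near a point is zero -/
theorem p3_zero (d : ℕ) (w : Fin d → ℝ) (g : MvPolynomial (Fin d) KK)
    (h : ∀ᶠ x in 𝓝 w, MvPolynomial.aeval x g = 0) : g = 0 := by
  obtain ⟨ε, hε, hb⟩ := Metric.eventually_nhds_iff.1 h
  have hinj : Function.Injective (MvPolynomial.map (σ := Fin d) (algebraMap KK ℝ)) :=
    MvPolynomial.map_injective _ (algebraMap KK ℝ).injective
  apply hinj
  rw [map_zero]
  apply MvPolynomial.funext_set (s := fun i => Set.Ioo (w i - ε) (w i + ε))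
  · intro i
    exact Set.Ioo_infinite (by linarith)
  · intro x hx
    rw [map_zero, MvPolynomial.eval_map, ← MvPolynomial.aeval_def]
    apply hb
    rw [dist_pi_lt_iff hε]
    intro i
    have := hx i (Set.mem_univ i)
    rw [Real.dist_eq, abs_lt]
    constructor <;> linarith [this.1, this.2]

theorem st_P3 (hTOP : ST_TOP) : ST_P3 := by
  intro d P J w F hL hP
  by_contra hcon
  push Not at hcon
  have hall : ∀ l, ∃ (A : Fin d → KK) (B : KK), l ∉ J →
      ((∀ᶠ x in 𝓝 w, F x l = ∑ i, (A i : ℝ) * x i + (B : ℝ)) ∧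
      toP ((fun i => (if i = l then 1 else 0) - A i, -B) : KForm d) ∈ P) := by
    intro l
    by_cases hl : l ∈ J
    · exact ⟨0, 0, fun h => absurd hl h⟩
    · obtain ⟨a, b, hab⟩ := hcon l hl
      obtain ⟨A, B, hA, hB, -, hf⟩ := p3_coef hTOP d P J w F hL l a b hab
      refine ⟨A, B, fun _ => ⟨?_, hf⟩⟩
      filter_upwards [hab] with x hx
      rw [hx, hB]
      simp only [hA]
  choose A B hAB using hall
  set σ : MvPolynomial (Fin d) KK →ₐ[KK] MvPolynomial (Fin d) KK :=
    MvPolynomial.aeval (fun l => if l ∈ J then MvPolynomial.X l else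
      ∑ i, MvPolynomial.C (A l i) * MvPolynomial.X i + MvPolynomial.C (B l)) with hσ
  set S : Ideal (MvPolynomial (Fin d) KK) :=
    Ideal.span {g | g ∈ P ∧ ∃ f : KForm d, g = toP f} with hS
  have hSP : S ≤ P := Ideal.span_le.2 fun g hg => hg.1
  have hXσ : ∀ l, MvPolynomial.X l - σ (MvPolynomial.X l) ∈ S := by
    intro l
    rw [hσ, MvPolynomial.aeval_X]
    by_cases hl : l ∈ J
    · rw [if_pos hl, sub_self]
      exact S.zero_mem
    · rw [if_neg hl]
      have h1 := (hAB l hl).2
      have h2 : MvPolynomial.X l - (∑ i, MvPolynomial.C (A l i) * MvPolynomial.X i +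
          MvPolynomial.C (B l)) =
          toP ((fun i => (if i = l then 1 else 0) - A l i, -B l) : KForm d) := by
        unfold toP
        have h3 : ∀ i : Fin d, MvPolynomial.C ((if i = l then (1 : KK) else 0) - A l i) *
            (MvPolynomial.X i : MvPolynomial (Fin d) KK) =
            (if i = l then MvPolynomial.X l else 0) -
              MvPolynomial.C (A l i) * MvPolynomial.X i := by
          intro i
          by_cases hi : i = l
          · subst hi
            rw [if_pos rfl, if_pos rfl, map_sub, map_one, sub_mul, one_mul]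
          · rw [if_neg hi, if_neg hi, map_sub, map_zero, sub_mul, zero_mul]
        simp only []
        rw [Finset.sum_congr rfl (fun i _ => h3 i), Finset.sum_sub_distrib, Finset.sum_ite_eq',
          if_pos (Finset.mem_univ l), map_neg]
        ring
      rw [h2]
      exact Ideal.subset_span ⟨h1, _, rfl⟩
  have hgσ : ∀ g, g - σ g ∈ S := by
    intro g
    have h1 : (Ideal.Quotient.mkₐ KK S).comp σ = Ideal.Quotient.mkₐ KK S := by
      apply MvPolynomial.algHom_ext
      intro l
      rw [AlgHom.comp_apply]
      symm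
      rw [← sub_eq_zero, ← map_sub]
      exact Ideal.Quotient.eq_zero_iff_mem.2 (hXσ l)
    have h2 := DFunLike.congr_fun h1 g
    rw [AlgHom.comp_apply] at h2
    apply Ideal.Quotient.eq_zero_iff_mem.1
    change Ideal.Quotient.mkₐ KK S (g - σ g) = 0
    rw [map_sub, h2, sub_self]
  apply hP
  intro g hg
  have hcont : Tendsto F (𝓝 w) (𝓝 w) := by
    have := hL.smooth.continuousAt
    rw [ContinuousAt, hL.fix] at this
    exact this
  have hz : σ g = 0 := by
    apply p3_zero d w
    have hall2 : ∀ᶠ x in 𝓝 w, ∀ l, l ∉ J → F x l = ∑ i, (A l i : ℝ) * x i + (B l : ℝ) := by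
      rw [eventually_all]
      intro l
      by_cases hl : l ∈ J
      · exact Eventually.of_forall fun x h => absurd hl h
      · filter_upwards [(hAB l hl).1] with x hx _
        exact hx
    filter_upwards [hall2, hcont.eventually hL.zero] with x hx hx0
    have h1 : F (F x) = F x := hL.dep _ _ fun j hj => hL.idJ x j hj
    have h2 : MvPolynomial.aeval (F x) g = 0 := hx0.2 h1 g hg
    rw [← h2]
    have h3 : (MvPolynomial.aeval x).comp σ = (MvPolynomial.aeval (F x) :
        MvPolynomial (Fin d) KK →ₐ[KK] ℝ) := by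
      apply MvPolynomial.algHom_ext
      intro l
      rw [AlgHom.comp_apply, hσ, MvPolynomial.aeval_X, MvPolynomial.aeval_X]
      by_cases hl : l ∈ J
      · rw [if_pos hl, MvPolynomial.aeval_X, hL.idJ x l hl]
      · rw [if_neg hl, hx l hl, map_add, map_sum, MvPolynomial.aeval_C]
        congr 1
        apply Finset.sum_congr rfl
        intro i _
        rw [map_mul, MvPolynomial.aeval_C, MvPolynomial.aeval_X]
        rfl
    exact DFunLike.congr_fun h3 g
  have h4 := hgσ g
  rw [hz, sub_zero] at h4
  exact h4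

end Pool.Agent.Helper54.DI
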