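import Pool.Agent.Helper54.DI.StmtsA

/-! Module Z4 of the dichotomy project: the three local shapes. -/

namespace Pool.Agent.Helper54.DI

open Finset Filter Topology

theorem z4_same (d : ℕ) (A : Set (Fin d → ℝ)) (F : (Fin d → ℝ) → (Fin d → ℝ))
    (U : Set (Fin d → ℝ)) (hU : Convex ℝ U) (hfr : ∀ x ∈ U, x ∈ frontier A → F x = x)
    (x y : Fin d → ℝ) (hx : x ∈ U) (hy : y ∈ U)
    (h : ∀ a b : ℝ, 0 ≤ a → 0 ≤ b → a + b = 1 → F (a • x + b • y) ≠ a • x + b • y) :
    x ∈ A ↔ y ∈ A := by
  have key : ¬ ((segment ℝ x y ∩ A).Nonempty ∧ (segment ℝ x y ∩ Aᶜ).Nonempty) := by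
    rintro ⟨h1, h2⟩
    have hp : IsPreconnected (segment ℝ x y) := (convex_segment x y).isPreconnected
    have hnf : ∀ z ∈ segment ℝ x y, z ∉ frontier A := by
      rintro z ⟨a, b, ha, hb, hab, rfl⟩ hzf
      exact h a b ha hb hab (hfr _ (hU hx hy ha hb hab) hzf)
    have hin : ∀ z ∈ segment ℝ x y, z ∈ A → z ∈ interior A := by
      intro z hz hzA
      by_contra hzi
      exact hnf z hz ⟨subset_closure hzA, hzi⟩
    have hout : ∀ z ∈ segment ℝ x y, z ∉ A → z ∈ interior Aᶜ := by
      intro z hz hzA
      rw [interior_compl]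
      intro hzc
      exact hnf z hz ⟨hzc, fun hzi => hzA (interior_subset hzi)⟩
    obtain ⟨u, hu, huA⟩ := h1
    obtain ⟨v, hv, hvA⟩ := h2
    obtain ⟨z, -, hz1, hz2⟩ := hp (interior A) (interior Aᶜ) isOpen_interior isOpen_interior
      (fun z hz => by
        by_cases hzA : z ∈ A
        · exact Or.inl (hin z hz hzA)
        · exact Or.inr (hout z hz hzA))
      ⟨u, hu, hin u hu huA⟩ ⟨v, hv, hout v hv hvA⟩
    exact interior_subset hz2 (interior_subset hz1)
  constructor
  · intro hxA
    by_contra hyA
    exact key ⟨⟨x, left_mem_segment ℝ x y, hxA⟩, ⟨y, right_mem_segment ℝ x y, hyA⟩⟩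
  · intro hyA
    by_contra hxA
    exact key ⟨⟨y, right_mem_segment ℝ x y, hyA⟩, ⟨x, left_mem_segment ℝ x y, hxA⟩⟩

/-- all points off the fixed set near `w` lie in `A` -/
theorem z4_two (d : ℕ) (A : Set (Fin d → ℝ)) (w : Fin d → ℝ) (F : (Fin d → ℝ) → (Fin d → ℝ))
    (hfw : w ∈ frontier A)
    (hG : ∀ᶠ x in 𝓝 w, F x = x → (x ∈ A ↔ w ∈ A))
    (h : ∀ᶠ x in 𝓝 w, F x ≠ x → x ∈ A) : ∀ᶠ x in 𝓝 w, (x ∈ A ↔ F x ≠ x) := by
  have hw : w ∉ A := by
    intro hwA
    have h1 : ∀ᶠ x in 𝓝 w, x ∈ A := by
      filter_upwards [hG, h] with x h1 h2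
      by_cases hx : F x = x
      · exact (h1 hx).2 hwA
      · exact h2 hx
    have h2 : w ∈ interior A := mem_interior_iff_mem_nhds.2 h1
    exact hfw.2 h2
  filter_upwards [hG, h] with x h1 h2
  constructor
  · intro hxA hx
    exact hw ((h1 hx).1 hxA)
  · exact h2

theorem z4_one (d : ℕ) (A : Set (Fin d → ℝ)) (w : Fin d → ℝ) (F : (Fin d → ℝ) → (Fin d → ℝ))
    (hfw : w ∈ frontier A)
    (hG : ∀ᶠ x in 𝓝 w, F x = x → (x ∈ A ↔ w ∈ A))
    (h : ∀ᶠ x in 𝓝 w, F x ≠ x → x ∉ A) : ∀ᶠ x in 𝓝 w, (x ∈ A ↔ F x = x) := by
  have hw : w ∈ A := by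
    by_contra hwA
    have h1 : ∀ᶠ x in 𝓝 w, x ∉ A := by
      filter_upwards [hG, h] with x h1 h2
      by_cases hx : F x = x
      · exact fun hxA => hwA ((h1 hx).1 hxA)
      · exact h2 hx
    have h2 : w ∉ closure A := by
      intro hc
      have := mem_closure_iff_frequently.1 hc
      exact this h1
    exact h2 hfw.1
  filter_upwards [hG, h] with x h1 h2
  constructor
  · intro hxA
    by_contra hx
    exact h2 hx hxA
  · intro hx
    exact (h1 hx).2 hw

theorem st_Z4 : ST_Z4 := by
  intro d A w J l F hl hcont hFw hdep hidJ hfw hfr hG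
  have hev := hfr.and hG
  rw [Metric.eventually_nhds_iff] at hev
  obtain ⟨e, he, hball⟩ := hev
  have hcw : ContinuousAt F w := hcont.self_of_nhds
  rw [Metric.continuousAt_iff] at hcw
  obtain ⟨δ, hδ, hFδ⟩ := hcw (e / 2) (by positivity)
  set s : ℝ := min δ e with hs
  have hs0 : 0 < s := lt_min hδ he
  have hsδ : s ≤ δ := min_le_left _ _
  have hse : s ≤ e := min_le_right _ _
  set U : Set (Fin d → ℝ) :=
    {x | (∀ i ∈ J, |x i - w i| < s) ∧ (∀ i, i ∉ J → |x i - w i| < e)} with hUdef
  have hUball : ∀ x ∈ U, dist x w < e := by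
    intro x hx
    rw [dist_pi_lt_iff he]
    intro i
    rw [Real.dist_eq]
    by_cases hi : i ∈ J
    · exact lt_of_lt_of_le (hx.1 i hi) hse
    · exact hx.2 i hi
  have hUfr : ∀ x ∈ U, x ∈ frontier A → F x = x := fun x hx => (hball (hUball x hx)).1
  have hUconv : Convex ℝ U := by
    intro x hx y hy a b ha hb hab
    have aux : ∀ i : Fin d, ∀ r : ℝ, |x i - w i| < r → |y i - w i| < r →
        |(a • x + b • y) i - w i| < r := by
      intro i r h1 h2
      have e1 : (a • x + b • y) i - w i = a * (x i - w i) + b * (y i - w i) := by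
        simp only [Pi.add_apply, Pi.smul_apply, smul_eq_mul]
        linear_combination (w i) * hab
      rw [e1]
      rw [abs_lt] at h1 h2 ⊢
      rcases eq_or_lt_of_le ha with ha0 | ha0
      · have hb1 : b = 1 := by linarith
        subst hb1
        rw [← ha0]
        constructor <;> linarith [h2.1, h2.2]
      · have h8 : a * r + b * r = r := by rw [← add_mul, hab, one_mul]
        have h9 := mul_lt_mul_of_pos_left h1.1 ha0
        have h10 := mul_le_mul_of_nonneg_left h2.1.le hb
        have h11 := mul_lt_mul_of_pos_left h1.2 ha0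
        have h12 := mul_le_mul_of_nonneg_left h2.2.le hb
        rw [mul_neg] at h9 h10
        constructor <;> linarith
    exact ⟨fun i hi => aux i s (hx.1 i hi) (hy.1 i hi), fun i hi => aux i e (hx.2 i hi) (hy.2 i hi)⟩
  have hUF : ∀ x ∈ U, ∀ i, |F x i - w i| < e / 2 := by
    intro x hx i
    have h1 : F x = F (fun i => if i ∈ J then x i else w i) := by
      apply hdep
      intro j hj
      simp only [hj, if_true]
    have h2 : dist (fun i => if i ∈ J then x i else w i) w < δ := by
      rw [dist_pi_lt_iff hδ]
      intro i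
      by_cases hi : i ∈ J
      · simp only [hi, if_true, Real.dist_eq]
        exact lt_of_lt_of_le (hx.1 i hi) hsδ
      · simp only [hi, if_false, dist_self]
        exact hδ
    have h3 := hFδ h2
    rw [hFw] at h3
    rw [dist_pi_lt_iff (by positivity)] at h3
    have h4 := h3 i
    rw [Real.dist_eq] at h4
    rw [h1]
    exact h4
  have hUnhds : ∀ᶠ x in 𝓝 w, x ∈ U := by
    rw [Metric.eventually_nhds_iff]
    refine ⟨s, hs0, fun y hy => ?_⟩
    rw [dist_pi_lt_iff hs0] at hy
    refine ⟨fun i _ => ?_, fun i _ => ?_⟩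
    · have := hy i
      rwa [Real.dist_eq] at this
    · have := hy i
      rw [Real.dist_eq] at this
      exact lt_of_lt_of_le this hse
  have hwU : w ∈ U := hUnhds.self_of_nhds
  -- changing a free coordinate inside the box
  have hupd : ∀ x ∈ U, ∀ i, i ∉ J → ∀ t : ℝ, |t - w i| < e → Function.update x i t ∈ U := by
    intro x hx i hi t ht
    refine ⟨fun j hj => ?_, fun j hj => ?_⟩
    · have hne : j ≠ i := fun h => hi (h ▸ hj)
      rw [Function.update_of_ne hne]
      exact hx.1 j hj
    · by_cases hji : j = i
      · subst hji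
        rw [Function.update_self]
        exact ht
      · rw [Function.update_of_ne hji]
        exact hx.2 j hj
  -- two points with the same coordinate `w i + c`, `|c| = 3/4 e`
  have hsame : ∀ i, i ∉ J → ∀ c : ℝ, e / 2 < |c| → ∀ x ∈ U, ∀ y ∈ U, x i = w i + c →
      y i = w i + c → (x ∈ A ↔ y ∈ A) := by
    intro i hi c hc x hx y hy hxi hyi
    apply z4_same d A F U hUconv hUfr x y hx hy
    intro a b ha hb hab hEq
    have hz : a • x + b • y ∈ U := hUconv hx hy ha hb hab
    have h1 := hUF _ hz i
    rw [hEq] at h1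
    have h2 : (a • x + b • y) i - w i = c := by
      simp only [Pi.add_apply, Pi.smul_apply, smul_eq_mul, hxi, hyi]
      linear_combination (w i + c) * hab
    rw [h2] at h1
    linarith
  have hp0 : ∀ c : ℝ, |c| < e → ∀ i, |w i + c - w i| < e := by
    intro c hc i
    rw [add_sub_cancel_left]
    exact hc
  have hc1 : |3 / 4 * e| < e := by
    rw [abs_of_pos (by positivity)]
    linarith
  have hc2 : |-(3 / 4 * e)| < e := by
    rw [abs_neg]
    exact hc1
  have hc3 : e / 2 < |3 / 4 * e| := by
    rw [abs_of_pos (by positivity)]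
    linarith
  have hc4 : e / 2 < |-(3 / 4 * e)| := by
    rw [abs_neg]
    exact hc3
  by_cases hall : ∀ j, j ≠ l → j ∈ J
  · -- one free coordinate
    have hne : ∀ x : Fin d → ℝ, F x = x ↔ F x l = x l := by
      intro x
      refine ⟨fun h => by rw [h], fun h => ?_⟩
      funext j
      by_cases hj : j = l
      · rw [hj]
        exact h
      · exact hidJ x j (hall j hj)
    have hFupd : ∀ x : Fin d → ℝ, ∀ t, F (Function.update x l t) = F x := by
      intro x t
      apply hdep
      intro j hj
      rw [Function.update_of_ne]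
      exact fun h => hl (h ▸ hj)
    have hup : ∀ x ∈ U, F x l < x l →
        (x ∈ A ↔ Function.update w l (w l + 3 / 4 * e) ∈ A) := by
      intro x hx hxl
      have h1 : Function.update x l (w l + 3 / 4 * e) ∈ U :=
        hupd x hx l hl _ (hp0 _ hc1 l)
      have h2 : Function.update w l (w l + 3 / 4 * e) ∈ U :=
        hupd w hwU l hl _ (hp0 _ hc1 l)
      have h3 : (x ∈ A ↔ Function.update x l (w l + 3 / 4 * e) ∈ A) := by
        apply z4_same d A F U hUconv hUfr _ _ hx h1
        intro a b ha hb hab hEq
        have h4 : F (a • x + b • Function.update x l (w l + 3 / 4 * e)) = F x := by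
          apply hdep
          intro j hj
          have hjl : j ≠ l := fun h => hl (h ▸ hj)
          simp only [Pi.add_apply, Pi.smul_apply, smul_eq_mul, Function.update_of_ne hjl]
          linear_combination (x j) * hab
        have h5 := congrFun hEq l
        rw [h4] at h5
        simp only [Pi.add_apply, Pi.smul_apply, smul_eq_mul, Function.update_self] at h5
        have h6 := (abs_lt.1 (hUF x hx l)).2
        have h7 : F x l < w l + 3 / 4 * e := by linarith
        rcases eq_or_lt_of_le ha with ha0 | ha0
        · have hb1 : b = 1 := by linarith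
          rw [← ha0, hb1] at h5
          linarith
        · have h8 : a * F x l + b * F x l = F x l := by rw [← add_mul, hab, one_mul]
          have h9 := mul_lt_mul_of_pos_left hxl ha0
          have h10 := mul_le_mul_of_nonneg_left h7.le hb
          linarith
      rw [h3]
      exact hsame l hl _ hc3 _ h1 _ h2 (by rw [Function.update_self])
        (by rw [Function.update_self])
    have hdn : ∀ x ∈ U, x l < F x l →
        (x ∈ A ↔ Function.update w l (w l + -(3 / 4 * e)) ∈ A) := by
      intro x hx hxl
      have h1 : Function.update x l (w l + -(3 / 4 * e)) ∈ U :=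
        hupd x hx l hl _ (hp0 _ hc2 l)
      have h2 : Function.update w l (w l + -(3 / 4 * e)) ∈ U :=
        hupd w hwU l hl _ (hp0 _ hc2 l)
      have h3 : (x ∈ A ↔ Function.update x l (w l + -(3 / 4 * e)) ∈ A) := by
        apply z4_same d A F U hUconv hUfr _ _ hx h1
        intro a b ha hb hab hEq
        have h4 : F (a • x + b • Function.update x l (w l + -(3 / 4 * e))) = F x := by
          apply hdep
          intro j hj
          have hjl : j ≠ l := fun h => hl (h ▸ hj)
          simp only [Pi.add_apply, Pi.smul_apply, smul_eq_mul, Function.update_of_ne hjl]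
          linear_combination (x j) * hab
        have h5 := congrFun hEq l
        rw [h4] at h5
        simp only [Pi.add_apply, Pi.smul_apply, smul_eq_mul, Function.update_self] at h5
        have h6 := (abs_lt.1 (hUF x hx l)).1
        have h7 : w l + -(3 / 4 * e) < F x l := by linarith
        rcases eq_or_lt_of_le ha with ha0 | ha0
        · have hb1 : b = 1 := by linarith
          rw [← ha0, hb1] at h5
          linarith
        · have h8 : a * F x l + b * F x l = F x l := by rw [← add_mul, hab, one_mul]
          have h9 := mul_lt_mul_of_pos_left hxl ha0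
          have h10 := mul_le_mul_of_nonneg_left h7.le hb
          linarith
      rw [h3]
      exact hsame l hl _ hc4 _ h1 _ h2 (by rw [Function.update_self])
        (by rw [Function.update_self])
    by_cases hu : Function.update w l (w l + 3 / 4 * e) ∈ A <;>
      by_cases hd : Function.update w l (w l + -(3 / 4 * e)) ∈ A
    · right; left
      apply z4_two d A w F hfw hG
      filter_upwards [hUnhds] with x hx hxF
      rw [ne_eq, hne] at hxF
      rcases lt_or_gt_of_ne hxF with h | h
      · exact (hup x hx h).2 hu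
      · exact (hdn x hx h).2 hd
    · right; right
      refine ⟨hall, Or.inr ?_⟩
      filter_upwards [hUnhds] with x hx
      exact ⟨fun h hxA => hd ((hdn x hx h).1 hxA), fun h => (hup x hx h).2 hu⟩
    · right; right
      refine ⟨hall, Or.inl ?_⟩
      filter_upwards [hUnhds] with x hx
      exact ⟨fun h => (hdn x hx h).2 hd, fun h hxA => hu ((hup x hx h).1 hxA)⟩
    · left
      apply z4_one d A w F hfw hG
      filter_upwards [hUnhds] with x hx hxF hxA
      rw [ne_eq, hne] at hxF
      rcases lt_or_gt_of_ne hxF with h | h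
      · exact hu ((hup x hx h).1 hxA)
      · exact hd ((hdn x hx h).1 hxA)
  · -- at least two free coordinates
    push Not at hall
    obtain ⟨l', hl'l, hl'⟩ := hall
    have hpU : ∀ i, i ∉ J → Function.update w i (w i + 3 / 4 * e) ∈ U :=
      fun i hi => hupd w hwU i hi _ (hp0 _ hc1 i)
    have hpp : ∀ i i', i ∉ J → i' ∉ J → (Function.update w i (w i + 3 / 4 * e) ∈ A ↔
        Function.update w i' (w i' + 3 / 4 * e) ∈ A) := by
      intro i i' hi hi'
      by_cases hii : i = i'
      · rw [hii]
      · have hz : Function.update (Function.update w i (w i + 3 / 4 * e)) i'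
            (w i' + 3 / 4 * e) ∈ U :=
          hupd _ (hpU i hi) i' hi' _ (hp0 _ hc1 i')
        have h1 := hsame i hi _ hc3 _ (hpU i hi) _ hz (by rw [Function.update_self])
          (by rw [Function.update_of_ne hii, Function.update_self])
        have h2 := hsame i' hi' _ hc3 _ hz _ (hpU i' hi') (by rw [Function.update_self])
          (by rw [Function.update_self])
        exact h1.trans h2
    have hallp : ∀ x ∈ U, F x ≠ x → (x ∈ A ↔ Function.update w l (w l + 3 / 4 * e) ∈ A) := by
      intro x hx hxF
      have : ∃ i0, F x i0 ≠ x i0 := by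
        by_contra hcon
        push Not at hcon
        exact hxF (funext hcon)
      obtain ⟨i0, hi0⟩ := this
      have hi0J : i0 ∉ J := fun h => hi0 (hidJ x i0 h)
      have : ∃ i1, i1 ∉ J ∧ i1 ≠ i0 := by
        by_cases h : l = i0
        · exact ⟨l', hl', fun h' => hl'l (h'.trans h.symm)⟩
        · exact ⟨l, hl, h⟩
      obtain ⟨i1, hi1, hi10⟩ := this
      have h1 : Function.update x i1 (w i1 + 3 / 4 * e) ∈ U :=
        hupd x hx i1 hi1 _ (hp0 _ hc1 i1)
      have h3 : (x ∈ A ↔ Function.update x i1 (w i1 + 3 / 4 * e) ∈ A) := by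
        apply z4_same d A F U hUconv hUfr _ _ hx h1
        intro a b ha hb hab hEq
        have h4 : F (a • x + b • Function.update x i1 (w i1 + 3 / 4 * e)) = F x := by
          apply hdep
          intro j hj
          have hjl : j ≠ i1 := fun h => hi1 (h ▸ hj)
          simp only [Pi.add_apply, Pi.smul_apply, smul_eq_mul, Function.update_of_ne hjl]
          linear_combination (x j) * hab
        have h5 := congrFun hEq i0
        rw [h4] at h5
        simp only [Pi.add_apply, Pi.smul_apply, smul_eq_mul,
          Function.update_of_ne (Ne.symm hi10)] at h5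
        apply hi0
        rw [h5]
        linear_combination (x i0) * hab
      rw [h3, hsame i1 hi1 _ hc3 _ h1 _ (hpU i1 hi1) (by rw [Function.update_self])
        (by rw [Function.update_self])]
      exact hpp i1 l hi1 hl
    by_cases hu : Function.update w l (w l + 3 / 4 * e) ∈ A
    · right; left
      apply z4_two d A w F hfw hG
      filter_upwards [hUnhds] with x hx hxF
      exact (hallp x hx hxF).2 hu
    · left
      apply z4_one d A w F hfw hG
      filter_upwards [hUnhds] with x hx hxF hxA
      exact hu ((hallp x hx hxF).1 hxA)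

end Pool.Agent.Helper54.DI
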